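import Mathlib

set_option autoImplicit false

namespace H611R3.PI

section alg

variable {A : Type*} [Ring A]

/-- a purely infinite simple ring has a non-surjective isometry-like element -/
theorem exists_st (hn : ∃ x : A, x ≠ 0 ∧ ¬ IsUnit x)
    (hpi : ∀ x : A, x ≠ 0 → ∃ a b : A, a * x * b = 1) :
    ∃ s t : A, t * s = 1 ∧ s * t ≠ 1 := by
  obtain ⟨x, hx0, hxu⟩ := hn
  obtain ⟨a, b, hab⟩ := hpi x hx0
  by_contra hcon
  push Not at hcon
  have h1 : (x * b) * a = 1 := hcon (x * b) a (by rw [← mul_assoc]; exact hab)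
  have h2 : b * (a * x) = 1 := hcon b (a * x) hab
  apply hxu
  have h3 : x * (b * a) = 1 := by rw [← mul_assoc]; exact h1
  have h4 : (b * a) * x = 1 := by rw [mul_assoc]; exact h2
  exact ⟨⟨x, b * a, h3, h4⟩, rfl⟩

theorem fact1 (hpi : ∀ x : A, x ≠ 0 → ∃ a b : A, a * x * b = 1) {e : A} (he : e * e = e)
    (he0 : e ≠ 0) : ∃ s t : A, t * s = 1 ∧ e * s = s ∧ t * e = t := by
  obtain ⟨a, b, hab⟩ := hpi e he0
  refine ⟨e * b, a * e, ?_, ?_, ?_⟩
  · calc a * e * (e * b) = a * (e * e) * b := by noncomm_ring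
      _ = 1 := by rw [he, hab]
  · rw [← mul_assoc, he]
  · rw [mul_assoc, he]

theorem nz_of_one {s t : A} (h : s * t ≠ 1) : (1 : A) ≠ 0 := by
  intro h0
  apply h
  calc s * t = s * t * 1 := by rw [mul_one]
    _ = 1 := by rw [h0, mul_zero]

theorem fact3 (hn : ∃ x : A, x ≠ 0 ∧ ¬ IsUnit x)
    (hpi : ∀ x : A, x ≠ 0 → ∃ a b : A, a * x * b = 1) {e : A} (he : e * e = e)
    (he0 : e ≠ 0) : ∃ s t : A, e * s = s ∧ s * e = s ∧ e * t = t ∧ t * e = t ∧ t * s = e ∧ s * t ≠ e := by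
  obtain ⟨s0, t0, h0, h0'⟩ := exists_st hn hpi
  obtain ⟨s1, t1, h1, hes, hte⟩ := fact1 hpi he he0
  refine ⟨s1 * s0 * e, e * t0 * t1, ?_, ?_, ?_, ?_, ?_, ?_⟩
  · calc e * (s1 * s0 * e) = (e * s1) * s0 * e := by noncomm_ring
      _ = _ := by rw [hes]
  · rw [mul_assoc, he]
  · calc e * (e * t0 * t1) = (e * e) * t0 * t1 := by noncomm_ring
      _ = _ := by rw [he]
  · rw [mul_assoc, hte]
  · calc e * t0 * t1 * (s1 * s0 * e) = e * (t0 * (t1 * s1) * s0) * e := by noncomm_ring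
      _ = e := by rw [h1, mul_one, h0, mul_one, he]
  · intro hcon
    have h2 : s0 * e * t0 = 1 := by
      calc s0 * e * t0 = (t1 * s1) * s0 * (e * e) * t0 * (t1 * s1) := by rw [h1, he]; noncomm_ring
        _ = t1 * (s1 * s0 * e * (e * t0 * t1)) * s1 := by noncomm_ring
        _ = 1 := by rw [hcon, hte, h1]
    have h3 : (1 - s0 * t0) * (s0 * e * t0) = 0 := by
      calc (1 - s0 * t0) * (s0 * e * t0) = s0 * e * t0 - s0 * (t0 * s0) * e * t0 := by noncomm_ring
        _ = 0 := by rw [h0, mul_one, sub_self]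
    rw [h2, mul_one, sub_eq_zero] at h3
    exact h0' h3.symm

theorem fact4 (hn : ∃ x : A, x ≠ 0 ∧ ¬ IsUnit x)
    (hpi : ∀ x : A, x ≠ 0 → ∃ a b : A, a * x * b = 1) {h : A} (hh : h * h = h) (hh0 : h ≠ 0) :
    ∃ s t : ℕ → A, (∀ i, h * s i = s i) ∧ (∀ i, t i * h = t i) ∧ (∀ i, t i * s i = 1) ∧
      ∀ i j, i ≠ j → t i * s j = 0 := by
  obtain ⟨s0, t0, h0, h0'⟩ := exists_st hn hpi
  have hf : (1 - s0 * t0) * (1 - s0 * t0) = 1 - s0 * t0 := by
    calc (1 - s0 * t0) * (1 - s0 * t0) = 1 - s0 * t0 - s0 * t0 + s0 * (t0 * s0) * t0 := by noncomm_ring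
      _ = _ := by rw [h0, mul_one]; abel
  have hf0 : (1 - s0 * t0) ≠ 0 := by
    intro h; rw [sub_eq_zero] at h; exact h0' h.symm
  obtain ⟨s1, t1, h1, hs1, ht1⟩ := fact1 hpi hf hf0
  obtain ⟨s, t, hst, hhs, hth⟩ := fact1 hpi hh hh0
  have ht0f : t0 * s1 = 0 := by
    rw [← hs1]
    calc t0 * ((1 - s0 * t0) * s1) = (t0 - (t0 * s0) * t0) * s1 := by noncomm_ring
      _ = 0 := by rw [h0, one_mul, sub_self, zero_mul]
  have hfs0 : t1 * s0 = 0 := by
    rw [← ht1]
    calc t1 * (1 - s0 * t0) * s0 = t1 * (s0 - s0 * (t0 * s0)) := by noncomm_ring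
      _ = 0 := by rw [h0, mul_one, sub_self, mul_zero]
  have hpow : ∀ k : ℕ, t0 ^ k * s0 ^ k = 1 := by
    intro k
    induction k with
    | zero => simp
    | succ k ih =>
      calc t0 ^ (k+1) * s0 ^ (k+1) = t0 ^ k * (t0 * s0) * s0 ^ k := by
            rw [pow_succ, pow_succ' s0]; noncomm_ring
        _ = 1 := by rw [h0, mul_one, ih]
  refine ⟨fun i => s * (s0 ^ i * s1), fun i => t1 * t0 ^ i * t, ?_, ?_, ?_, ?_⟩
  · intro i
    simp only
    rw [← mul_assoc, hhs]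
  · intro i
    simp only
    rw [mul_assoc, hth]
  · intro i
    simp only
    calc t1 * t0 ^ i * t * (s * (s0 ^ i * s1)) = t1 * (t0 ^ i * (t * s) * s0 ^ i) * s1 := by noncomm_ring
      _ = 1 := by rw [hst, mul_one, hpow, mul_one, h1]
  · intro i j hij
    simp only
    have key : t1 * t0 ^ i * t * (s * (s0 ^ j * s1)) = t1 * (t0 ^ i * s0 ^ j) * s1 := by
      calc t1 * t0 ^ i * t * (s * (s0 ^ j * s1)) = t1 * (t0 ^ i * (t * s) * s0 ^ j) * s1 := by noncomm_ring
        _ = _ := by rw [hst, mul_one]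
    rw [key]
    rcases Nat.lt_or_gt_of_ne hij with hlt | hgt
    · obtain ⟨k, rfl⟩ := Nat.exists_eq_add_of_lt hlt
      have : t0 ^ i * s0 ^ (i + k + 1) = s0 * s0 ^ k := by
        rw [add_assoc, pow_add, ← mul_assoc, hpow, one_mul, pow_succ']
      rw [this, ← mul_assoc, hfs0, zero_mul, zero_mul]
    · obtain ⟨k, rfl⟩ := Nat.exists_eq_add_of_lt hgt
      have : t0 ^ (j + k + 1) * s0 ^ j = t0 ^ k * t0 := by
        rw [show j + k + 1 = (k+1) + j by ring, pow_add, mul_assoc, hpow, mul_one, pow_succ]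
      rw [this]
      calc t1 * (t0 ^ k * t0) * s1 = t1 * t0 ^ k * (t0 * s1) := by noncomm_ring
        _ = 0 := by rw [ht0f, mul_zero]

/-- Given idempotents `e, h ≠ 0` and `a ∈ hAe`, there are nonzero idempotents `e' ≤ e`, `h' ≤ h` with
`h' a e' = 0`. -/
theorem sub (hn : ∃ x : A, x ≠ 0 ∧ ¬ IsUnit x)
    (hpi : ∀ x : A, x ≠ 0 → ∃ a b : A, a * x * b = 1) {e h a : A} (he : e * e = e) (hh : h * h = h)
    (he0 : e ≠ 0) (hh0 : h ≠ 0) (hha : h * a = a) (hae : a * e = a) :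
    ∃ e' h' : A, e' * e' = e' ∧ e' ≠ 0 ∧ e * e' = e' ∧ e' * e = e' ∧
      h' * h' = h' ∧ h' ≠ 0 ∧ h * h' = h' ∧ h' * h = h' ∧ h' * a * e' = 0 := by
  by_cases ha : a = 0
  · exact ⟨e, h, he, he0, he, he, hh, hh0, hh, hh, by rw [ha, mul_zero, zero_mul]⟩
  have h10 : (1 : A) ≠ 0 := by
    intro h0
    apply he0
    calc e = e * 1 := by rw [mul_one]
      _ = 0 := by rw [h0, mul_zero]
  obtain ⟨b0, c0, hbc0⟩ := hpi a ha
  obtain ⟨b, hb⟩ : ∃ b, b = b0 * h := ⟨_, rfl⟩
  obtain ⟨c, hc⟩ : ∃ c, c = e * c0 := ⟨_, rfl⟩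
  have hbc : b * a * c = 1 := by
    rw [hb, hc]
    calc b0 * h * a * (e * c0) = b0 * (h * a * e) * c0 := by noncomm_ring
      _ = 1 := by rw [hha, hae, hbc0]
  have hbh : b * h = b := by rw [hb, mul_assoc, hh]
  have hec : e * c = c := by rw [hc, ← mul_assoc, he]
  obtain ⟨p, hp⟩ : ∃ p, p = c * b * a := ⟨_, rfl⟩
  obtain ⟨q, hq⟩ : ∃ q, q = a * c * b := ⟨_, rfl⟩
  have hpp : p * p = p := by
    rw [hp]
    calc c * b * a * (c * b * a) = c * (b * a * c) * (b * a) := by noncomm_ring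
      _ = c * b * a := by rw [hbc]; noncomm_ring
  have hqq : q * q = q := by
    rw [hq]
    calc a * c * b * (a * c * b) = a * c * (b * a * c) * b := by noncomm_ring
      _ = _ := by rw [hbc, mul_one]
  have hp0 : p ≠ 0 := by
    intro h0
    apply h10
    calc (1 : A) = (b * a * c) * (b * a * c) := by rw [hbc, mul_one]
      _ = b * a * (c * b * a) * c := by noncomm_ring
      _ = 0 := by rw [← hp, h0, mul_zero, zero_mul]
  have hq0 : q ≠ 0 := by
    intro h0
    apply h10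
    calc (1 : A) = (b * a * c) * (b * a * c) := by rw [hbc, mul_one]
      _ = b * (a * c * b) * a * c := by noncomm_ring
      _ = 0 := by rw [← hq, h0, mul_zero, zero_mul, zero_mul]
  have hep : e * p = p := by
    rw [hp, ← mul_assoc, ← mul_assoc, hec]
  have hpe : p * e = p := by
    rw [hp, mul_assoc, hae]
  have hhq : h * q = q := by
    rw [hq, ← mul_assoc, ← mul_assoc, hha]
  have hqh : q * h = q := by
    rw [hq, mul_assoc, hbh]
  have hqa : q * a = a * p := by rw [hq, hp]; noncomm_ring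
  by_cases hqh' : q = h
  · by_cases hpe' : p = e
    · obtain ⟨s, t, hes, hse, het, hte, hts, hst⟩ := fact3 hn hpi he he0
      obtain ⟨e1, he1⟩ : ∃ e1, e1 = s * t := ⟨_, rfl⟩
      have h11 : e1 * e1 = e1 := by
        rw [he1]
        calc s * t * (s * t) = s * (t * s) * t := by noncomm_ring
          _ = s * t := by rw [hts, hse]
      have h1e : e * e1 = e1 := by rw [he1, ← mul_assoc, hes]
      have h1e' : e1 * e = e1 := by rw [he1, mul_assoc, hte]
      have he10 : e1 ≠ 0 := by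
        intro h0
        apply he0
        calc e = (t * s) * (t * s) := by rw [hts, he]
          _ = t * (s * t) * s := by noncomm_ring
          _ = 0 := by rw [← he1, h0, mul_zero, zero_mul]
      have hne : e1 ≠ e := by rw [he1]; exact hst
      have hcba : c * b * a = e := by rw [← hp, hpe']
      have hacb : a * c * b = h := by rw [← hq, hqh']
      obtain ⟨h1, hh1⟩ : ∃ h1, h1 = a * e1 * (c * b) := ⟨_, rfl⟩
      have hhh1 : h1 * h1 = h1 := by
        rw [hh1]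
        calc a * e1 * (c * b) * (a * e1 * (c * b)) = a * e1 * (c * b * a) * e1 * (c * b) := by noncomm_ring
          _ = a * (e1 * e1) * (c * b) := by rw [hcba, mul_assoc a e1 e, h1e', mul_assoc a e1 e1]
          _ = _ := by rw [h11]
      have hh1' : h * h1 = h1 := by
        rw [hh1]
        calc h * (a * e1 * (c * b)) = (h * a) * e1 * (c * b) := by noncomm_ring
          _ = _ := by rw [hha]
      have hh1'' : h1 * h = h1 := by
        rw [hh1]
        calc a * e1 * (c * b) * h = a * e1 * (c * (b * h)) := by noncomm_ring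
          _ = _ := by rw [hbh]
      refine ⟨e1, h - h1, h11, he10, h1e, h1e', ?_, ?_, ?_, ?_, ?_⟩
      · calc (h - h1) * (h - h1) = h * h - h * h1 - h1 * h + h1 * h1 := by noncomm_ring
          _ = h - h1 := by rw [hh, hh1', hh1'', hhh1]; abel
      · intro h0
        rw [sub_eq_zero] at h0
        apply hne
        calc e1 = e * e1 * e := by rw [h1e, h1e']
          _ = (c * b * a) * e1 * (c * b * a) := by rw [hcba]
          _ = c * b * (a * e1 * (c * b)) * a := by noncomm_ring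
          _ = c * b * (h * a) := by rw [← hh1, ← h0]; noncomm_ring
          _ = e := by rw [hha, hcba]
      · rw [mul_sub, hh, hh1']
      · rw [sub_mul, hh, hh1'']
      · calc (h - h1) * a * e1 = (h * a) * e1 - h1 * a * e1 := by noncomm_ring
          _ = a * e1 - a * e1 * (c * b * a) * e1 := by rw [hha, hh1]; noncomm_ring
          _ = a * e1 - a * (e1 * e1) := by rw [hcba, mul_assoc a e1 e, h1e', mul_assoc a e1 e1]
          _ = 0 := by rw [h11, sub_self]
    · refine ⟨e - p, h, ?_, ?_, ?_, ?_, hh, hh0, hh, hh, ?_⟩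
      · calc (e - p) * (e - p) = e * e - e * p - p * e + p * p := by noncomm_ring
          _ = e - p := by rw [he, hep, hpe, hpp]; abel
      · intro h0
        rw [sub_eq_zero] at h0
        exact hpe' h0.symm
      · rw [mul_sub, he, hep]
      · rw [sub_mul, he, hpe]
      · rw [hha, mul_sub, hae, ← hqa, hqh', hha, sub_self]
  · refine ⟨p, h - q, hpp, hp0, hep, hpe, ?_, ?_, ?_, ?_, ?_⟩
    · calc (h - q) * (h - q) = h * h - h * q - q * h + q * q := by noncomm_ring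
        _ = h - q := by rw [hh, hhq, hqh, hqq]; abel
    · intro h0
      rw [sub_eq_zero] at h0
      exact hqh' h0.symm
    · rw [mul_sub, hh, hhq]
    · rw [sub_mul, hh, hqh]
    · calc (h - q) * a * p = (h * a) * p - (q * a) * p := by noncomm_ring
        _ = 0 := by rw [hha, hqa, mul_assoc a p p, hpp, sub_self]

/-- For a unit `u` (inverse `v`) there are nonzero orthogonal idempotents `e, h` with `h u e = 0` and `e v h = 0`. -/
theorem pair (hn : ∃ x : A, x ≠ 0 ∧ ¬ IsUnit x)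
    (hpi : ∀ x : A, x ≠ 0 → ∃ a b : A, a * x * b = 1) (u v : A) :
    ∃ e h : A, e * e = e ∧ e ≠ 0 ∧ h * h = h ∧ h ≠ 0 ∧ e * h = 0 ∧ h * e = 0 ∧
      h * u * e = 0 ∧ e * v * h = 0 := by
  have h10 : (1 : A) ≠ 0 := by
    obtain ⟨s, t, _, hst⟩ := exists_st hn hpi
    exact nz_of_one hst
  obtain ⟨s, t, -, -, hts, hts'⟩ := fact4 hn hpi (one_mul (1 : A)) h10
  obtain ⟨e0, he0⟩ : ∃ e0, e0 = s 0 * t 0 := ⟨_, rfl⟩
  obtain ⟨h0, hh0⟩ : ∃ h0, h0 = s 1 * t 1 := ⟨_, rfl⟩
  have he : e0 * e0 = e0 := by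
    rw [he0]
    calc s 0 * t 0 * (s 0 * t 0) = s 0 * (t 0 * s 0) * t 0 := by noncomm_ring
      _ = _ := by rw [hts, mul_one]
  have hh : h0 * h0 = h0 := by
    rw [hh0]
    calc s 1 * t 1 * (s 1 * t 1) = s 1 * (t 1 * s 1) * t 1 := by noncomm_ring
      _ = _ := by rw [hts, mul_one]
  have heh : e0 * h0 = 0 := by
    rw [he0, hh0]
    calc s 0 * t 0 * (s 1 * t 1) = s 0 * (t 0 * s 1) * t 1 := by noncomm_ring
      _ = _ := by rw [hts' 0 1 (by norm_num), mul_zero, zero_mul]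
  have hhe : h0 * e0 = 0 := by
    rw [he0, hh0]
    calc s 1 * t 1 * (s 0 * t 0) = s 1 * (t 1 * s 0) * t 0 := by noncomm_ring
      _ = _ := by rw [hts' 1 0 (by norm_num), mul_zero, zero_mul]
  have hne : e0 ≠ 0 := by
    intro h
    apply h10
    calc (1 : A) = (t 0 * s 0) * (t 0 * s 0) := by rw [hts, mul_one]
      _ = t 0 * (s 0 * t 0) * s 0 := by noncomm_ring
      _ = 0 := by rw [← he0, h, mul_zero, zero_mul]
  have hnh : h0 ≠ 0 := by
    intro h
    apply h10
    calc (1 : A) = (t 1 * s 1) * (t 1 * s 1) := by rw [hts, mul_one]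
      _ = t 1 * (s 1 * t 1) * s 1 := by noncomm_ring
      _ = 0 := by rw [← hh0, h, mul_zero, zero_mul]
  obtain ⟨e1, h1, e11, e1n, ee1, e1e, h11, h1n, hh1, h1h, hae⟩ :=
    sub hn hpi (a := h0 * u * e0) he hh hne hnh (by rw [← mul_assoc, ← mul_assoc, hh])
      (by rw [mul_assoc, he])
  have hue1 : h1 * u * e1 = 0 := by
    calc h1 * u * e1 = (h1 * h0) * u * (e0 * e1) := by rw [h1h, ee1]
      _ = h1 * (h0 * u * e0) * e1 := by noncomm_ring
      _ = 0 := hae
  obtain ⟨h2, e2, h22, h2n, h1h2, h2h1, e22, e2n, e1e2, e2e1, hb⟩ :=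
    sub hn hpi (a := e1 * v * h1) h11 e11 h1n e1n (by rw [← mul_assoc, ← mul_assoc, e11])
      (by rw [mul_assoc, h11])
  refine ⟨e2, h2, e22, e2n, h22, h2n, ?_, ?_, ?_, ?_⟩
  · calc e2 * h2 = (e2 * (e1 * e0)) * ((h0 * h1) * h2) := by rw [e1e, e2e1, hh1, h1h2]
      _ = e2 * e1 * (e0 * h0) * h1 * h2 := by noncomm_ring
      _ = 0 := by rw [heh]; simp
  · calc h2 * e2 = (h2 * (h1 * h0)) * ((e0 * e1) * e2) := by rw [h1h, h2h1, ee1, e1e2]
      _ = h2 * h1 * (h0 * e0) * e1 * e2 := by noncomm_ring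
      _ = 0 := by rw [hhe]; simp
  · calc h2 * u * e2 = (h2 * h1) * u * (e1 * e2) := by rw [h2h1, e1e2]
      _ = h2 * (h1 * u * e1) * e2 := by noncomm_ring
      _ = 0 := by rw [hue1]; simp
  · calc e2 * v * h2 = (e2 * e1) * v * (h1 * h2) := by rw [e2e1, h1h2]
      _ = e2 * (e1 * v * h1) * h2 := by noncomm_ring
      _ = 0 := hb

end alg

end H611R3.PI
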