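import Mathlib
import Pool.Agent.H611R3.PI

set_option autoImplicit false

namespace H611R3.PI

section top

variable {R : Type*} [Ring R] [Algebra ℂ R] [TopologicalSpace R] [IsTopologicalRing R]
  [ContinuousSMul ℂ R]

/-- the unit `1 + n`, `n * n = 0` -/
def uni (n : R) (h : n * n = 0) : Rˣ where
  val := 1 + n
  inv := 1 - n
  val_inv := by
    calc (1 + n) * (1 - n) = 1 - n * n := by noncomm_ring
      _ = 1 := by rw [h, sub_zero]
  inv_val := by
    calc (1 - n) * (1 + n) = 1 - n * n := by noncomm_ring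
      _ = 1 := by rw [h, sub_zero]

theorem uni_mem (n : R) (h : n * n = 0) :
    uni n h ∈ Subgroup.connectedComponentOfOne Rˣ := by
  have hz : ∀ z : ℂ, (z • n) * (z • n) = 0 := by
    intro z
    rw [smul_mul_assoc, mul_smul_comm, h, smul_zero, smul_zero]
  let φ : ℂ → Rˣ := fun z => uni (z • n) (hz z)
  have hφ : Continuous φ := by
    rw [Units.continuous_iff]
    constructor
    · change Continuous fun z : ℂ => 1 + z • n
      fun_prop
    · change Continuous fun z : ℂ => 1 - z • n
      fun_prop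
  have h1 : (φ '' Set.univ) ⊆ connectedComponent (1 : Rˣ) := by
    apply IsPreconnected.subset_connectedComponent
    · exact isPreconnected_univ.image φ hφ.continuousOn
    · refine ⟨0, trivial, ?_⟩
      ext
      change 1 + (0 : ℂ) • n = 1
      simp
  have h2 : φ 1 ∈ connectedComponent (1 : Rˣ) := h1 ⟨1, trivial, rfl⟩
  have h3 : φ 1 = uni n h := by
    ext
    change 1 + (1 : ℂ) • n = 1 + n
    simp
  rw [← h3]
  exact h2

theorem exists_rot {e x y : R} (hxe : x * e = x) (hye : y * e = 0)
    (hyx : y * x = e) (hxx : x * x = 0) (hyy : y * y = 0) :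
    ∃ r ∈ Subgroup.connectedComponentOfOne Rˣ, (r : R) * e = x := by
  have hyy' : (-y) * (-y) = 0 := by rw [neg_mul_neg, hyy]
  refine ⟨uni x hxx * uni (-y) hyy' * uni x hxx,
    mul_mem (mul_mem (uni_mem _ _) (uni_mem _ _)) (uni_mem _ _), ?_⟩
  change (1 + x) * (1 + -y) * (1 + x) * e = x
  calc (1 + x) * (1 + -y) * (1 + x) * e = (1 + x) * ((1 - y) * (e + x * e)) := by noncomm_ring
    _ = (1 + x) * (e + x - y * e - y * x) := by rw [hxe]; noncomm_ring
    _ = x + x * x := by rw [hye, hyx]; noncomm_ring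
    _ = x := by rw [hxx, add_zero]

/-- every unit is, up to the identity component, one which fixes a nonzero idempotent -/
theorem reduce (hn : ∃ x : R, x ≠ 0 ∧ ¬ IsUnit x)
    (hpi : ∀ x : R, x ≠ 0 → ∃ a b : R, a * x * b = 1) (u : Rˣ) :
    ∃ g ∈ Subgroup.connectedComponentOfOne Rˣ, ∃ k ∈ Subgroup.connectedComponentOfOne Rˣ, ∃ e : R,
      e * e = e ∧ e ≠ 0 ∧ ((g * u * k : Rˣ) : R) * e = e ∧ e * ((g * u * k : Rˣ) : R) = e := by
  obtain ⟨e, h, he, he0, hh, hh0, heh, hhe, hue, hvh⟩ := pair hn hpi (u : R) ((u⁻¹ : Rˣ) : R)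
  obtain ⟨s, t, hts, hhs, hth⟩ := fact1 hpi hh hh0
  have huv : (u : R) * ((u⁻¹ : Rˣ) : R) = 1 := u.mul_inv
  have hvu : ((u⁻¹ : Rˣ) : R) * (u : R) = 1 := u.inv_mul
  obtain ⟨v, hv⟩ : ∃ v, v = ((u⁻¹ : Rˣ) : R) := ⟨_, rfl⟩
  obtain ⟨w, hw⟩ : ∃ w, w = (u : R) := ⟨_, rfl⟩
  rw [← hv, ← hw] at huv hvu
  rw [← hw] at hue
  rw [← hv] at hvh
  have hes : e * s = 0 := by rw [← hhs, ← mul_assoc, heh, zero_mul]
  have hte : t * e = 0 := by rw [← hth, mul_assoc, hhe, mul_zero]
  have htw : t * w * e = 0 := by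
    calc t * w * e = t * h * w * e := by rw [hth]
      _ = t * (h * w * e) := by noncomm_ring
      _ = 0 := by rw [hue, mul_zero]
  have hvs : e * v * s = 0 := by
    calc e * v * s = e * v * (h * s) := by rw [hhs]
      _ = (e * v * h) * s := by noncomm_ring
      _ = 0 := by rw [hvh, zero_mul]
  -- first rotation: `x1 = s e`, `y1 = e t`
  obtain ⟨r1, hr1, hr1e⟩ := exists_rot (R := R) (e := e) (x := s * e) (y := e * t)
    (by rw [mul_assoc, he]) (by rw [mul_assoc, hte, mul_zero])
    (by
      calc e * t * (s * e) = e * (t * s) * e := by noncomm_ring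
        _ = e := by rw [hts, mul_one, he])
    (by
      calc s * e * (s * e) = s * (e * s) * e := by noncomm_ring
        _ = 0 := by rw [hes]; simp)
    (by
      calc e * t * (e * t) = e * (t * e) * t := by noncomm_ring
        _ = 0 := by rw [hte]; simp)
  -- second rotation: `e' = s e t`, `x2 = w e t`, `y2 = s e v`
  obtain ⟨r2, hr2, hr2e⟩ := exists_rot (R := R) (e := s * e * t) (x := w * e * t) (y := s * e * v)
    (by
      calc w * e * t * (s * e * t) = w * e * (t * s) * e * t := by noncomm_ring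
        _ = w * (e * e) * t := by rw [hts]; noncomm_ring
        _ = _ := by rw [he])
    (by
      calc s * e * v * (s * e * t) = s * (e * v * s) * e * t := by noncomm_ring
        _ = 0 := by rw [hvs]; simp)
    (by
      calc s * e * v * (w * e * t) = s * e * (v * w) * e * t := by noncomm_ring
        _ = s * (e * e) * t := by rw [hvu]; noncomm_ring
        _ = _ := by rw [he])
    (by
      calc w * e * t * (w * e * t) = w * e * (t * w * e) * t := by noncomm_ring
        _ = 0 := by rw [htw]; simp)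
    (by
      calc s * e * v * (s * e * v) = s * (e * v * s) * e * v := by noncomm_ring
        _ = 0 := by rw [hvs]; simp)
  have hr21 : ((r2 * r1 : Rˣ) : R) * e = w * e := by
    rw [Units.val_mul, mul_assoc, hr1e]
    calc (r2 : R) * (s * e) = (r2 : R) * (s * e * (t * s) * e) := by
          rw [hts, mul_one, mul_assoc s e e, he]
      _ = ((r2 : R) * (s * e * t)) * (s * e) := by noncomm_ring
      _ = w * e * (t * s) * e := by rw [hr2e]; noncomm_ring
      _ = w * e := by rw [hts, mul_one, mul_assoc, he]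
  obtain ⟨g, hg⟩ : ∃ g, g = (r2 * r1)⁻¹ := ⟨_, rfl⟩
  have hgmem : g ∈ Subgroup.connectedComponentOfOne Rˣ := by
    rw [hg]; exact inv_mem (mul_mem hr2 hr1)
  have hgue : ((g * u : Rˣ) : R) * e = e := by
    rw [Units.val_mul, mul_assoc, ← hw, ← hr21, ← mul_assoc, ← Units.val_mul, hg, inv_mul_cancel,
      Units.val_one, one_mul]
  obtain ⟨a, ha⟩ : ∃ a, a = ((g * u : Rˣ) : R) := ⟨_, rfl⟩
  rw [← ha] at hgue
  obtain ⟨c, hc⟩ : ∃ c, c = e * a * (1 - e) := ⟨_, rfl⟩
  have hce : c * e = 0 := by
    rw [hc]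
    calc e * a * (1 - e) * e = e * a * (e - e * e) := by noncomm_ring
      _ = 0 := by rw [he, sub_self, mul_zero]
  have hec : e * c = c := by
    rw [hc]
    calc e * (e * a * (1 - e)) = (e * e) * a * (1 - e) := by noncomm_ring
      _ = _ := by rw [he]
  have hcc : c * c = 0 := by
    calc c * c = c * (e * c) := by rw [hec]
      _ = (c * e) * c := by noncomm_ring
      _ = 0 := by rw [hce, zero_mul]
  have hcc' : (-c) * (-c) = 0 := by rw [neg_mul_neg, hcc]
  have hea : e * a = e + c := by
    rw [hc]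
    calc e * a = e * (a * e) + (e * a - e * (a * e)) := by abel
      _ = e + (e * a - e * (a * e)) := by rw [hgue, he]
      _ = e + e * a * (1 - e) := by noncomm_ring
  refine ⟨g, hgmem, uni (-c) hcc', uni_mem _ _, e, he, he0, ?_, ?_⟩
  · rw [Units.val_mul, ← ha]
    change a * (1 + -c) * e = e
    calc a * (1 + -c) * e = a * e - a * (c * e) := by noncomm_ring
      _ = e := by rw [hgue, hce]; simp
  · rw [Units.val_mul, ← ha]
    change e * (a * (1 + -c)) = e
    calc e * (a * (1 + -c)) = e * a - (e * a) * c := by noncomm_ring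
      _ = e + c - (e + c) * c := by rw [hea]
      _ = e := by rw [add_mul, hec, hcc]; abel

end top

end H611R3.PI
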