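import Mathlib
import Pool.Agent.H611R3.PITop

set_option autoImplicit false
set_option linter.unusedSectionVars false

namespace H611R3.PI

open Matrix

section mat

variable {A : Type*} [Ring A] {ι κ : Type*} [Fintype ι] [DecidableEq ι] [Fintype κ] [DecidableEq κ]

/-- the compression homomorphism `X ↦ S X T + (1 - S T)` when `T S = 1` -/
def thetaM (S : Matrix κ ι A) (T : Matrix ι κ A) (h : T * S = 1) :
    Matrix ι ι A →* Matrix κ κ A where
  toFun X := S * X * T + (1 - S * T)
  map_one' := by simp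
  map_mul' X Y := by
    have h1 : T * (1 - S * T) = 0 := by
      rw [Matrix.mul_sub, Matrix.mul_one, ← Matrix.mul_assoc, h, Matrix.one_mul, sub_self]
    have h2 : (1 - S * T) * S = 0 := by
      rw [Matrix.sub_mul, Matrix.one_mul, Matrix.mul_assoc, h, Matrix.mul_one, sub_self]
    have h3 : (1 - S * T) * (1 - S * T) = 1 - S * T := by
      rw [mul_sub (1 - S * T), mul_one, ← Matrix.mul_assoc, h2, Matrix.zero_mul, sub_zero]
    rw [mul_add, add_mul, add_mul, h3]
    have e1 : S * X * T * (S * Y * T) = S * (X * Y) * T := by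
      calc S * X * T * (S * Y * T) = S * X * (T * S) * Y * T := by simp only [Matrix.mul_assoc]
        _ = _ := by rw [h, Matrix.mul_one]; simp only [Matrix.mul_assoc]
    have e2 : (1 - S * T) * (S * Y * T) = 0 := by
      calc (1 - S * T) * (S * Y * T) = (1 - S * T) * S * Y * T := by simp only [Matrix.mul_assoc]
        _ = 0 := by rw [h2]; simp
    have e3 : S * X * T * (1 - S * T) = 0 := by
      rw [Matrix.mul_assoc, h1, Matrix.mul_zero]
    rw [e1, e2, e3]
    abel

/-- a `Fin 1 × Fin 1` matrix is a ring element -/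
def oneM : Matrix (Fin 1) (Fin 1) A →* A where
  toFun X := X 0 0
  map_one' := by simp
  map_mul' X Y := by simp [Matrix.mul_apply]

/-- `x ↦ diag(x, 1, …, 1)` -/
def diagM (m : ℕ) : A →* Matrix (Fin (m+1)) (Fin (m+1)) A where
  toFun x := Matrix.diagonal (fun i : Fin (m+1) => if i = 0 then x else 1)
  map_one' := by simp
  map_mul' x y := by
    rw [Matrix.diagonal_mul_diagonal]
    congr 1
    funext i
    split_ifs <;> simp

theorem sq_upper (B : Matrix ι κ A) :
    (fromBlocks 0 B 0 0 : Matrix (ι ⊕ κ) (ι ⊕ κ) A) * fromBlocks 0 B 0 0 = 0 := by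
  rw [fromBlocks_multiply]
  simp

theorem sq_lower (C : Matrix κ ι A) :
    (fromBlocks 0 0 C 0 : Matrix (ι ⊕ κ) (ι ⊕ κ) A) * fromBlocks 0 0 C 0 = 0 := by
  rw [fromBlocks_multiply]
  simp

end mat

section grp

theorem conj_mem {G : Type*} [Group G] [TopologicalSpace G] [IsTopologicalGroup G] {g : G}
    (hg : g ∈ Subgroup.connectedComponentOfOne G) (V : G) :
    g * V * g⁻¹ ∈ connectedComponent V := by
  have hc : Continuous fun x : G => x * V * x⁻¹ := by fun_prop
  have h := hc.image_connectedComponent_subset 1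
  have h1 : (1 : G) * V * 1⁻¹ = V := by simp
  rw [h1] at h
  exact h ⟨g, hg, rfl⟩

theorem map_mem {G H : Type*} [Group G] [TopologicalSpace G] [IsTopologicalGroup G]
    [Group H] [TopologicalSpace H] [IsTopologicalGroup H] (φ : G →* H) (hφ : Continuous φ) {g : G}
    (hg : g ∈ Subgroup.connectedComponentOfOne G) : φ g ∈ Subgroup.connectedComponentOfOne H := by
  have h := hφ.image_connectedComponent_subset 1
  rw [map_one] at h
  exact h ⟨g, hg, rfl⟩

end grp

section main

variable {A : Type*} [Ring A] [Algebra ℂ A] [TopologicalSpace A] [IsTopologicalRing A]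
  [ContinuousSMul ℂ A]

theorem continuous_thetaM {ι κ : Type*} [Fintype ι] [DecidableEq ι] [Fintype κ] [DecidableEq κ]
    (S : Matrix κ ι A) (T : Matrix ι κ A) (h : T * S = 1) : Continuous (thetaM S T h) := by
  change Continuous fun X : Matrix ι ι A => S * X * T + (1 - S * T)
  exact ((continuous_const.matrix_mul continuous_id).matrix_mul continuous_const).add continuous_const

theorem continuous_oneM : Continuous (oneM : Matrix (Fin 1) (Fin 1) A →* A) := by
  change Continuous fun X : Matrix (Fin 1) (Fin 1) A => X 0 0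
  fun_prop

theorem continuous_diagM (m : ℕ) : Continuous (diagM m : A →* Matrix (Fin (m+1)) (Fin (m+1)) A) := by
  change Continuous fun x : A => Matrix.diagonal (fun i : Fin (m+1) => if i = 0 then x else 1)
  apply Continuous.matrix_diagonal
  apply continuous_pi
  intro i
  by_cases h : i = 0
  · simp only [h, if_true]; exact continuous_id
  · simp only [h, if_false]; exact continuous_const

/-- in block form, `diag(U, 1) ~ diag(1, S U T + 1 - S T)` -/
theorem step1 {ι κ : Type*} [Fintype ι] [DecidableEq ι] [Fintype κ] [DecidableEq κ]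
    (S : Matrix κ ι A) (T : Matrix ι κ A) (h : T * S = 1) (V V' : (Matrix (ι ⊕ κ) (ι ⊕ κ) A)ˣ)
    (U : Matrix ι ι A)
    (hV : (V : Matrix (ι ⊕ κ) (ι ⊕ κ) A) = fromBlocks U 0 0 1)
    (hV' : (V' : Matrix (ι ⊕ κ) (ι ⊕ κ) A) = fromBlocks 1 0 0 (S * U * T + (1 - S * T))) :
    V' ∈ connectedComponent V := by
  obtain ⟨g, hg⟩ : ∃ g, g = uni (fromBlocks 0 0 S 0 : Matrix (ι ⊕ κ) (ι ⊕ κ) A) (sq_lower S) *
    uni (fromBlocks 0 (-T) 0 0) (sq_upper (-T)) * uni (fromBlocks 0 0 S 0) (sq_lower S) := ⟨_, rfl⟩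
  have hgm : g ∈ Subgroup.connectedComponentOfOne (Matrix (ι ⊕ κ) (ι ⊕ κ) A)ˣ := by
    rw [hg]
    exact mul_mem (mul_mem (uni_mem _ _) (uni_mem _ _)) (uni_mem _ _)
  have h1 : T * (1 - S * T) = 0 := by
    rw [Matrix.mul_sub, Matrix.mul_one, ← Matrix.mul_assoc, h, Matrix.one_mul, sub_self]
  have h2 : (1 - S * T) * S = 0 := by
    rw [Matrix.sub_mul, Matrix.one_mul, Matrix.mul_assoc, h, Matrix.mul_one, sub_self]
  have hgv : (g : Matrix (ι ⊕ κ) (ι ⊕ κ) A) = fromBlocks 0 (-T) S (1 - S * T) := by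
    rw [hg]
    change (1 + fromBlocks 0 0 S 0) * (1 + fromBlocks 0 (-T) 0 0) * (1 + fromBlocks 0 0 S 0) = _
    rw [← fromBlocks_one, fromBlocks_add, fromBlocks_add, fromBlocks_multiply, fromBlocks_multiply]
    congr 1
    · simp [h]
    · simp
    · simp [Matrix.add_mul, Matrix.mul_assoc, h]
    · simp; abel
  have e : V' = g * V * g⁻¹ := by
    rw [eq_mul_inv_iff_mul_eq]
    ext1
    rw [Units.val_mul, Units.val_mul, hV, hV', hgv, fromBlocks_multiply, fromBlocks_multiply]
    congr 1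
    · simp
    · simp
    · have : (S * U * T + (1 - S * T)) * S = S * U := by
        rw [Matrix.add_mul, h2, add_zero, Matrix.mul_assoc (S * U) T S, h, Matrix.mul_one]
      simp [this]
    · have : (S * U * T + (1 - S * T)) * (1 - S * T) = 1 - S * T := by
        rw [Matrix.add_mul, Matrix.mul_assoc (S * U) T _, h1, Matrix.mul_zero, zero_add,
          Matrix.mul_sub (1 - S * T), Matrix.mul_one, ← Matrix.mul_assoc, h2, Matrix.zero_mul, sub_zero]
      simp [this]
  rw [e]
  exact conj_mem hgm V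

/-- in block form, `diag(1, x) ~ diag(1 - P Q + P x Q, 1)` when `Q P = 1` -/
theorem step2 {ι κ : Type*} [Fintype ι] [DecidableEq ι] [Fintype κ] [DecidableEq κ]
    (P : Matrix ι κ A) (Q : Matrix κ ι A) (h : Q * P = 1) (V V' : (Matrix (ι ⊕ κ) (ι ⊕ κ) A)ˣ)
    (x : Matrix κ κ A)
    (hV : (V : Matrix (ι ⊕ κ) (ι ⊕ κ) A) = fromBlocks 1 0 0 x)
    (hV' : (V' : Matrix (ι ⊕ κ) (ι ⊕ κ) A) = fromBlocks (1 - P * Q + P * x * Q) 0 0 1) :
    V' ∈ connectedComponent V := by
  obtain ⟨g, hg⟩ : ∃ g, g = uni (fromBlocks 0 P 0 0 : Matrix (ι ⊕ κ) (ι ⊕ κ) A) (sq_upper P) *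
    uni (fromBlocks 0 0 (-Q) 0) (sq_lower (-Q)) * uni (fromBlocks 0 P 0 0) (sq_upper P) := ⟨_, rfl⟩
  have hgm : g ∈ Subgroup.connectedComponentOfOne (Matrix (ι ⊕ κ) (ι ⊕ κ) A)ˣ := by
    rw [hg]
    exact mul_mem (mul_mem (uni_mem _ _) (uni_mem _ _)) (uni_mem _ _)
  have h1 : Q * (1 - P * Q) = 0 := by
    rw [Matrix.mul_sub, Matrix.mul_one, ← Matrix.mul_assoc, h, Matrix.one_mul, sub_self]
  have h2 : (1 - P * Q) * P = 0 := by
    rw [Matrix.sub_mul, Matrix.one_mul, Matrix.mul_assoc, h, Matrix.mul_one, sub_self]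
  have hgv : (g : Matrix (ι ⊕ κ) (ι ⊕ κ) A) = fromBlocks (1 - P * Q) P (-Q) 0 := by
    rw [hg]
    change (1 + fromBlocks 0 P 0 0) * (1 + fromBlocks 0 0 (-Q) 0) * (1 + fromBlocks 0 P 0 0) = _
    rw [← fromBlocks_one, fromBlocks_add, fromBlocks_add, fromBlocks_multiply, fromBlocks_multiply]
    congr 1
    · simp; abel
    · simp [Matrix.add_mul, Matrix.mul_assoc, h]
    · simp
    · simp [h]
  have e : V' = g * V * g⁻¹ := by
    rw [eq_mul_inv_iff_mul_eq]
    ext1
    rw [Units.val_mul, Units.val_mul, hV, hV', hgv, fromBlocks_multiply, fromBlocks_multiply]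
    congr 1
    · have : (1 - P * Q + P * x * Q) * (1 - P * Q) = 1 - P * Q := by
        rw [Matrix.add_mul, Matrix.mul_assoc (P * x) Q _, h1, Matrix.mul_zero, add_zero,
          Matrix.mul_sub (1 - P * Q), Matrix.mul_one, ← Matrix.mul_assoc, h2, Matrix.zero_mul, sub_zero]
      simp [this]
    · have : (1 - P * Q + P * x * Q) * P = P * x := by
        rw [Matrix.add_mul, h2, zero_add, Matrix.mul_assoc (P * x) Q P, h, Matrix.mul_one]
      simp [this]
    · simp
    · simp
  rw [e]
  exact conj_mem hgm V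

end main

end H611R3.PI
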