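import Mathlib
import Pool.Agent.H611R3.PIMain

set_option autoImplicit false
set_option linter.unusedSectionVars false

namespace H611R3.PI

open Matrix

section main

variable {A : Type*} [Ring A] [Algebra ℂ A] [TopologicalSpace A] [IsTopologicalRing A]
  [ContinuousSMul ℂ A]

/-- the row with entries `s i` -/
def rowM (m : ℕ) (s : ℕ → A) : Matrix (Fin 1) (Fin (m+1)) A := fun _ j => s j

/-- the column with entries `t i` -/
def colM (m : ℕ) (t : ℕ → A) : Matrix (Fin (m+1)) (Fin 1) A := fun i _ => t i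

theorem col_mul_row {m : ℕ} {s t : ℕ → A} (h1 : ∀ i, t i * s i = 1)
    (h2 : ∀ i j, i ≠ j → t i * s j = 0) : colM m t * rowM m s = 1 := by
  ext i j
  rw [Matrix.mul_apply]
  simp only [Finset.univ_unique, Finset.sum_singleton, colM, rowM]
  by_cases hij : i = j
  · subst hij
    rw [h1, Matrix.one_apply_eq]
  · rw [Matrix.one_apply_ne hij]
    apply h2
    intro h
    exact hij (Fin.ext h)

theorem inj (hn : ∃ x : A, x ≠ 0 ∧ ¬ IsUnit x)
    (hpi : ∀ x : A, x ≠ 0 → ∃ a b : A, a * x * b = 1) (m : ℕ) (a : Aˣ)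
    (U : (Matrix (Fin (m+1)) (Fin (m+1)) A)ˣ)
    (hU : (U : Matrix (Fin (m+1)) (Fin (m+1)) A) =
      Matrix.diagonal (fun i : Fin (m+1) => if i = 0 then (a : A) else 1))
    (hmem : U ∈ connectedComponent (1 : (Matrix (Fin (m+1)) (Fin (m+1)) A)ˣ)) :
    a ∈ connectedComponent (1 : Aˣ) := by
  obtain ⟨g, hg, k, hk, e, he, he0, hae, hea⟩ := reduce hn hpi a
  obtain ⟨s, t, hes, hse, het, hte, hts, hst⟩ := fact3 hn hpi he he0
  have hh : (e - s * t) * (e - s * t) = e - s * t := by
    calc (e - s * t) * (e - s * t) = e * e - (e * s) * t - s * (t * e) + s * (t * s) * t := by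
          noncomm_ring
      _ = e - s * t := by rw [he, hes, hte, hts, hse]; abel
  have hh0 : e - s * t ≠ 0 := by
    intro h
    rw [sub_eq_zero] at h
    exact hst h.symm
  obtain ⟨σ, τ, hσ, hτ, hd, hod⟩ := fact4 hn hpi hh hh0
  obtain ⟨S, hS⟩ : ∃ S : ℕ → A, S = fun i => if i = 0 then (1 - e) + s else σ i := ⟨_, rfl⟩
  obtain ⟨T, hT⟩ : ∃ T : ℕ → A, T = fun i => if i = 0 then (1 - e) + t else τ i := ⟨_, rfl⟩
  have hth : ((1 - e) + t) * (e - s * t) = 0 := by
    calc ((1 - e) + t) * (e - s * t) = e - e * e - s * t + (e * s) * t + t * e - (t * s) * t := by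
          noncomm_ring
      _ = 0 := by rw [he, hes, hte, hts, het]; abel
  have hhs : (e - s * t) * ((1 - e) + s) = 0 := by
    calc (e - s * t) * ((1 - e) + s) = e - e * e + e * s - s * t + s * (t * e) - s * (t * s) := by
          noncomm_ring
      _ = 0 := by rw [he, hes, hte, hts, hse]; abel
  have h00 : ((1 - e) + t) * ((1 - e) + s) = 1 := by
    calc ((1 - e) + t) * ((1 - e) + s) = 1 - e - e + e * e + s - e * s + t - t * e + t * s := by
          noncomm_ring
      _ = 1 := by rw [he, hes, hte, hts]; abel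
  have hST1 : ∀ i, T i * S i = 1 := by
    intro i
    rw [hS, hT]
    by_cases hi : i = 0
    · simp only [hi, if_true]; exact h00
    · simp only [hi, if_false]; exact hd i
  have hST2 : ∀ i j, i ≠ j → T i * S j = 0 := by
    intro i j hij
    rw [hS, hT]
    by_cases hi : i = 0
    · have hj : ¬ j = 0 := fun h => hij (by rw [hi, h])
      simp only [hi, if_true, hj, if_false]
      rw [← hσ j, ← mul_assoc, hth, zero_mul]
    · by_cases hj : j = 0
      · simp only [hj, if_true, hi, if_false]
        rw [← hτ i, mul_assoc, hhs, mul_zero]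
      · simp only [hi, hj, if_false]
        exact hod i j hij
  have hTS : colM m T * rowM m S = 1 := col_mul_row hST1 hST2
  -- the homomorphisms
  let Θ : Matrix (Fin (m+1)) (Fin (m+1)) A →* A := oneM.comp (thetaM (rowM m S) (colM m T) hTS)
  have hΘ : Continuous Θ :=
    continuous_oneM.comp (continuous_thetaM (rowM m S) (colM m T) hTS)
  let D : A →* Matrix (Fin (m+1)) (Fin (m+1)) A := diagM m
  have hD : Continuous D := continuous_diagM m
  have hΘu : Continuous (Units.map Θ) := hΘ.units_map Θ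
  have hDu : Continuous (Units.map D) := hD.units_map D
  have hUD : U = Units.map D a := by
    ext1
    rw [hU]
    rfl
  have hmem' : Units.map D (g * a * k) ∈
      Subgroup.connectedComponentOfOne (Matrix (Fin (m+1)) (Fin (m+1)) A)ˣ := by
    rw [map_mul, map_mul]
    refine mul_mem (mul_mem ?_ ?_) ?_
    · exact map_mem _ hDu hg
    · rw [← hUD]; exact hmem
    · exact map_mem _ hDu hk
  have hfin := map_mem _ hΘu hmem'
  have hval : Units.map Θ (Units.map D (g * a * k)) = g * a * k := by
    ext1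
    obtain ⟨b, hb⟩ : ∃ b, b = ((g * a * k : Aˣ) : A) := ⟨_, rfl⟩
    rw [Units.coe_map, Units.coe_map, ← hb]
    rw [← hb] at hae hea
    change (rowM m S * Matrix.diagonal (fun i : Fin (m+1) => if i = 0 then b else 1) * colM m T +
      (1 - rowM m S * colM m T) : Matrix (Fin 1) (Fin 1) A) 0 0 = b
    have e1 : (rowM m S * Matrix.diagonal (fun i : Fin (m+1) => if i = 0 then b else 1) *
        colM m T) 0 0 = S 0 * b * T 0 + ∑ i : Fin m, S i.succ * T i.succ := by
      rw [Matrix.mul_apply, Fin.sum_univ_succ]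
      congr 1
      · rw [Matrix.mul_diagonal]; simp [rowM, colM]
      · apply Finset.sum_congr rfl
        intro i _
        rw [Matrix.mul_diagonal, if_neg (Fin.succ_ne_zero i), mul_one]
        rfl
    have e2 : (rowM m S * colM m T) 0 0 = S 0 * T 0 + ∑ i : Fin m, S i.succ * T i.succ := by
      rw [Matrix.mul_apply, Fin.sum_univ_succ]
      rfl
    rw [Matrix.add_apply, Matrix.sub_apply, e1, e2, Matrix.one_apply_eq]
    have e3 : S 0 * b * T 0 = b - e + s * t := by
      rw [hS, hT]
      simp only [if_true]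
      have hsb : s * b = s := by rw [← hse, mul_assoc, hea]
      have hbt : b * t = t := by rw [← het, ← mul_assoc, hae]
      calc (1 - e + s) * b * (1 - e + t)
          = (1 - e) * b * (1 - e) + (1 - e) * (b * t) + (s * b) * (1 - e) + (s * b) * t := by
            noncomm_ring
        _ = (1 - e) * b * (1 - e) + (1 - e) * t + s * (1 - e) + s * t := by rw [hsb, hbt]
        _ = b - b * e - e * b + e * (b * e) + t - e * t + s - s * e + s * t := by noncomm_ring
        _ = b - e + s * t := by rw [hae, hea, he, het, hse]; abel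
    have e4 : S 0 * T 0 = 1 - e + s * t := by
      rw [hS, hT]
      simp only [if_true]
      calc (1 - e + s) * (1 - e + t) = 1 - e - e + e * e + t - e * t + s - s * e + s * t := by
            noncomm_ring
        _ = 1 - e + s * t := by rw [he, het, hse]; abel
    rw [e3, e4]
    abel
  rw [hval] at hfin
  have : g⁻¹ * (g * a * k) * k⁻¹ ∈ Subgroup.connectedComponentOfOne Aˣ :=
    mul_mem (mul_mem (inv_mem hg) hfin) (inv_mem hk)
  have e : g⁻¹ * (g * a * k) * k⁻¹ = a := by group
  rw [e] at this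
  exact this

theorem surj (hn : ∃ x : A, x ≠ 0 ∧ ¬ IsUnit x)
    (hpi : ∀ x : A, x ≠ 0 → ∃ a b : A, a * x * b = 1) (n : ℕ)
    (U : (Matrix (Fin (n+1)) (Fin (n+1)) A)ˣ) :
    ∃ (a : Aˣ)
        (V W : (Matrix (Fin (n+1) ⊕ Fin 1) (Fin (n+1) ⊕ Fin 1) A)ˣ),
        (V : Matrix (Fin (n+1) ⊕ Fin 1) (Fin (n+1) ⊕ Fin 1) A) =
          Matrix.fromBlocks (U : Matrix (Fin (n+1)) (Fin (n+1)) A) 0 0 1 ∧
        (W : Matrix (Fin (n+1) ⊕ Fin 1) (Fin (n+1) ⊕ Fin 1) A) =
          Matrix.diagonal (fun i : Fin (n+1) ⊕ Fin 1 =>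
            if i = Sum.inl 0 then (a : A) else 1) ∧
        W ∈ connectedComponent V := by
  have h10 : (1 : A) ≠ 0 := by
    obtain ⟨s, t, _, hst⟩ := exists_st hn hpi
    exact nz_of_one hst
  obtain ⟨s, t, -, -, h1, h2⟩ := fact4 hn hpi (one_mul (1 : A)) h10
  have hTS : colM n t * rowM n s = 1 := col_mul_row h1 h2
  let Θ : Matrix (Fin (n+1)) (Fin (n+1)) A →* Matrix (Fin 1) (Fin 1) A :=
    thetaM (rowM n s) (colM n t) hTS
  let X : (Matrix (Fin 1) (Fin 1) A)ˣ := Units.map Θ U
  let a : Aˣ := Units.map oneM X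
  have hX : (X : Matrix (Fin 1) (Fin 1) A) = Matrix.diagonal (fun _ => (a : A)) := by
    ext i j
    have hi : i = 0 := Subsingleton.elim _ _
    have hj : j = 0 := Subsingleton.elim _ _
    subst hi; subst hj
    simp [a, oneM]
  -- block-diagonal units
  have mk : ∀ (P : (Matrix (Fin (n+1)) (Fin (n+1)) A)ˣ) (Q : (Matrix (Fin 1) (Fin 1) A)ˣ),
      ∃ V : (Matrix (Fin (n+1) ⊕ Fin 1) (Fin (n+1) ⊕ Fin 1) A)ˣ,
        (V : Matrix (Fin (n+1) ⊕ Fin 1) (Fin (n+1) ⊕ Fin 1) A) =
          Matrix.fromBlocks (P : Matrix (Fin (n+1)) (Fin (n+1)) A) 0 0 (Q : Matrix (Fin 1) (Fin 1) A) := by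
    intro P Q
    refine ⟨⟨Matrix.fromBlocks P 0 0 Q, Matrix.fromBlocks (P⁻¹ : (Matrix (Fin (n+1)) (Fin (n+1)) A)ˣ) 0 0
      (Q⁻¹ : (Matrix (Fin 1) (Fin 1) A)ˣ), ?_, ?_⟩, rfl⟩
    · rw [Matrix.fromBlocks_multiply]
      simp [Matrix.fromBlocks_one]
    · rw [Matrix.fromBlocks_multiply]
      simp [Matrix.fromBlocks_one]
  obtain ⟨V, hV⟩ := mk U 1
  obtain ⟨V1, hV1⟩ := mk 1 X
  obtain ⟨W, hW⟩ := mk (Units.map (diagM n) a) 1
  refine ⟨a, V, W, ?_, ?_, ?_⟩
  · rw [hV, Units.val_one]
  · rw [hW, Units.coe_map, Units.val_one]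
    change Matrix.fromBlocks (Matrix.diagonal (fun i : Fin (n+1) => if i = 0 then (a : A) else 1)) 0 0 1 = _
    rw [← Matrix.diagonal_one, Matrix.fromBlocks_diagonal]
    congr 1
    funext i
    rcases i with i | i
    · simp
    · simp
  · have s1 : V1 ∈ connectedComponent V := by
      apply step1 (rowM n s) (colM n t) hTS V V1 (U : Matrix (Fin (n+1)) (Fin (n+1)) A)
      · rw [hV, Units.val_one]
      · rw [hV1, Units.val_one]
        rfl
    have s2 : W ∈ connectedComponent V1 := by
      have hQP : (rowM n (fun i => if i = 0 then (1 : A) else 0)) *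
          (colM n (fun i => if i = 0 then (1 : A) else 0)) = 1 := by
        ext i j
        have hi : i = 0 := Subsingleton.elim _ _
        have hj : j = 0 := Subsingleton.elim _ _
        subst hi; subst hj
        rw [Matrix.mul_apply, Fin.sum_univ_succ]
        simp [rowM, colM]
      apply step2 (colM n (fun i => if i = 0 then (1 : A) else 0))
        (rowM n (fun i => if i = 0 then (1 : A) else 0)) hQP V1 W (X : Matrix (Fin 1) (Fin 1) A)
      · rw [hV1, Units.val_one]
      · rw [hW, Units.val_one, Units.coe_map]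
        congr 1
        ext i j
        change Matrix.diagonal (fun i : Fin (n+1) => if i = 0 then (a : A) else 1) i j = _
        rw [Matrix.add_apply, Matrix.sub_apply, Matrix.mul_apply, Matrix.mul_apply]
        simp only [Finset.univ_unique, Finset.sum_singleton, hX, Matrix.mul_diagonal, rowM, colM]
        by_cases hij : i = j
        · subst hij
          rw [Matrix.diagonal_apply_eq, Matrix.one_apply_eq]
          by_cases hi : i = 0
          · subst hi; simp
          · have hi' : ((i : Fin (n+1)) : ℕ) ≠ 0 := fun h => hi (Fin.ext h)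
            simp [hi, hi']
        · rw [Matrix.diagonal_apply_ne _ hij, Matrix.one_apply_ne hij]
          by_cases hi : i = 0
          · subst hi
            have hj' : ((j : Fin (n+1)) : ℕ) ≠ 0 := fun h => hij (Fin.ext h.symm)
            simp [hj']
          · have hi' : ((i : Fin (n+1)) : ℕ) ≠ 0 := fun h => hi (Fin.ext h)
            simp [hi']
    rw [connectedComponent_eq s1]
    exact s2

end main

end H611R3.PI
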